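import Mathlib
import Pool.Agent.H892.VS.Stm

/-!
# Border varieties of sums of powers on toric varieties: the topology is noetherian
-/

set_option autoImplicit false

open MvPolynomial TopologicalSpace

namespace Pool.Agent.H80.VS

open Pool.Agent.H892.VS

variable {n s : ℕ} (T : Cox n s) (D : Finset (Fin s → ℤ))

open Classical in
/-- the monomials of degrees in `D` -/
noncomputable def MM : Finset (Mon n) := D.biUnion T.mon

theorem mem_MM {m : Mon n} : m ∈ MM T D ↔ T.wt m ∈ D := by
  classical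
  unfold MM
  rw [Finset.mem_biUnion]
  constructor
  · rintro ⟨u, hu, h⟩
    have h1 : T.wt m = u := (Set.Finite.mem_toFinset (T.fin u)).1 h
    rw [h1]
    exact hu
  · intro h
    exact ⟨T.wt m, h, (Set.Finite.mem_toFinset (T.fin _)).2 rfl⟩

theorem co_zero {A : Finset (Mon n)} {J : Ideal (MvPolynomial (Fin n) ℂ)} {q : Mon n × Mon n}
    (hq : ¬ (q.1 ∈ MM T D ∧ q.2 ∈ MM T D)) : T.co D A J q = 0 := by
  unfold Cox.co
  split_ifs with h
  · by_contra h0
    obtain ⟨-, h2⟩ := (Classical.choose_spec h.2).1 q.2 h0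
    exact hq ⟨(mem_MM T D).2 h.1, (mem_MM T D).2 (by rw [h2]; exact h.1)⟩
  · rfl

theorem red_of {A A' : Finset (Mon n)} (h : ∀ a, T.wt a ∈ D → (a ∈ A ↔ a ∈ A'))
    {J : Ideal (MvPolynomial (Fin n) ℂ)} {m : Mon n} {c : Mon n → ℂ} (hm : T.wt m ∈ D)
    (hr : T.Red A J m c) : T.Red A' J m c := by
  classical
  have h1 : ∀ a, c a ≠ 0 → a ∈ A' := fun a ha => by
    obtain ⟨h2, h3⟩ := hr.1 a ha
    exact (h a (by rw [h3]; exact hm)).1 h2
  refine ⟨fun a ha => ⟨h1 a ha, (hr.1 a ha).2⟩, ?_⟩
  have e1 : ∑ a ∈ A, monomial a (c a) = ∑ a ∈ A ∪ A', monomial a (c a) := by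
    refine Finset.sum_subset Finset.subset_union_left fun a _ ha => ?_
    have h2 : c a = 0 := by
      by_contra h0
      exact ha (hr.1 a h0).1
    rw [h2, monomial_zero]
  have e2 : ∑ a ∈ A', monomial a (c a) = ∑ a ∈ A ∪ A', monomial a (c a) := by
    refine Finset.sum_subset Finset.subset_union_right fun a _ ha => ?_
    have h2 : c a = 0 := by
      by_contra h0
      exact ha (h1 a h0)
    rw [h2, monomial_zero]
  rw [e2, ← e1]
  exact hr.2

theorem base_inter [DecidableEq (Mon n)] {A : Finset (Mon n)}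
    {J : Ideal (MvPolynomial (Fin n) ℂ)} (h : T.IsBase D A J) :
    T.IsBase D (A ∩ MM T D) J := by
  intro m hm
  obtain ⟨c, hc, hu⟩ := h m hm
  have h1 : ∀ a, T.wt a ∈ D → (a ∈ A ↔ a ∈ A ∩ MM T D) := fun a ha => by
    rw [Finset.mem_inter, and_iff_left ((mem_MM T D).2 ha)]
  exact ⟨c, red_of T D h1 hm hc, fun c' hc' => hu c' (red_of T D (fun a ha => (h1 a ha).symm) hm hc')⟩

theorem eval_restr {κ : Type} (W : Finset κ) (Q : MvPolynomial κ ℂ) :
    ∃ Q' : MvPolynomial W ℂ, ∀ y : κ → ℂ, (∀ w, w ∉ W → y w = 0) →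
      eval (fun w : W => y w) Q' = eval y Q := by
  classical
  refine ⟨aeval (fun w => if h : w ∈ W then (X ⟨w, h⟩ : MvPolynomial W ℂ) else 0) Q,
    fun y hy => ?_⟩
  have h : (eval (fun w : W => y w)).comp
      (aeval (fun w => if h : w ∈ W then (X ⟨w, h⟩ : MvPolynomial W ℂ) else 0) :
        MvPolynomial κ ℂ →ₐ[ℂ] MvPolynomial W ℂ).toRingHom = eval y := by
    refine MvPolynomial.ringHom_ext (fun c => ?_) fun w => ?_
    · simp
    · by_cases hw : w ∈ W
      · simp [hw]
      · simp [hw, hy w hw]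
  exact RingHom.congr_fun h Q

theorem noeth_chart (h1 : S_CHANGE) (A : Finset (Mon n)) :
    @NoetherianSpace {J | T.IsBase D A J} (@instTopologicalSpaceSubtype _ _ (T.zar D)) := by
  classical
  let _ := T.zar D
  let W : Finset (Mon n × Mon n) := MM T D ×ˢ MM T D
  let φ : {J | T.IsBase D A J} → PrimeSpectrum (MvPolynomial W ℂ) := fun J =>
    ⟨RingHom.ker (eval (fun w : W => T.co D A J.1 w)), RingHom.ker_isPrime _⟩
  have hφ : ∀ (Q : MvPolynomial W ℂ) (J : {J | T.IsBase D A J}),
      φ J ∈ PrimeSpectrum.basicOpen Q ↔ eval (fun w : W => T.co D A J.1 w) Q ≠ 0 := by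
    intro Q J
    rw [PrimeSpectrum.mem_basicOpen]
    rfl
  have hi : Topology.IsInducing φ := by
    refine ⟨le_antisymm ?_ ?_⟩
    · rw [← continuous_iff_le_induced, PrimeSpectrum.isTopologicalBasis_basic_opens.continuous_iff]
      rintro _ ⟨Q, rfl⟩
      have h2 : φ ⁻¹' (PrimeSpectrum.basicOpen Q : Set (PrimeSpectrum (MvPolynomial W ℂ))) =
          Subtype.val ⁻¹' (T.bo D A (rename Subtype.val Q)) := by
        ext J
        rw [Set.mem_preimage, SetLike.mem_coe, hφ, Set.mem_preimage]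
        have h3 : eval (T.co D A J.1) (rename Subtype.val Q) =
            eval (fun w : W => T.co D A J.1 w) Q := by
          rw [eval_rename]
          rfl
        constructor
        · intro h4
          exact ⟨J.2, by rw [h3]; exact h4⟩
        · intro h4
          rw [← h3]
          exact h4.2
      have h5 : @IsOpen _ (T.zar D) (T.bo D A (rename Subtype.val Q)) :=
        isOpen_generateFrom_of_mem ⟨A, _, rfl⟩
      rw [h2]
      exact h5.preimage continuous_subtype_val
    · change TopologicalSpace.induced φ _ ≤ TopologicalSpace.induced Subtype.val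
        (TopologicalSpace.generateFrom {O | ∃ A P, O = T.bo D A P})
      rw [induced_generateFrom_eq]
      apply le_generateFrom
      rintro _ ⟨_, ⟨A', P', rfl⟩, rfl⟩
      obtain ⟨Q, hQ⟩ := h1 n s T D A A' P'
      obtain ⟨Q', hQ'⟩ := eval_restr W Q
      refine isOpen_induced_iff.2 ⟨PrimeSpectrum.basicOpen Q', (PrimeSpectrum.basicOpen Q').isOpen, ?_⟩
      ext J
      rw [Set.mem_preimage, SetLike.mem_coe, hφ, Set.mem_preimage, hQ J.1 J.2,
        hQ' (T.co D A J.1) fun w hw => co_zero T D fun h => hw (Finset.mem_product.2 h)]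
  exact hi.noetherianSpace

theorem t_NOETH (h1 : S_CHANGE) (h2 : S_BASE) : S_NOETH := by
  classical
  intro n s T D
  let _ := T.zar D
  rw [← noetherian_univ_iff]
  have hU : (Set.univ : Set (Ideal (MvPolynomial (Fin n) ℂ))) =
      ⋃ A : (MM T D).powerset, {J | T.IsBase D (A : Finset (Mon n)) J} := by
    symm
    rw [Set.eq_univ_iff_forall]
    intro J
    obtain ⟨A, hA⟩ := h2 n s T D J
    exact Set.mem_iUnion.2 ⟨⟨A ∩ MM T D, Finset.mem_powerset.2 Finset.inter_subset_right⟩,
      base_inter T D hA⟩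
  rw [hU]
  have hN : ∀ A : (MM T D).powerset,
      NoetherianSpace {J | T.IsBase D (A : Finset (Mon n)) J} := fun A => noeth_chart T D h1 A
  exact NoetherianSpace.iUnion _

end Pool.Agent.H80.VS
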